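import Pool.Agent.H547.AcJ

set_option autoImplicit false

/-!
The full first question of `MP_ac7af6_nt`: all four congruences (1)-(4) hold for every prime `p > 5`.
-/

namespace Pool.Agent.Results.MP_ac7af6_nt.QOneFourCongruences

open Finset Pool.Agent.R439.PL Pool.Agent.H547

/-- `x` is `p`-integral: its reduced denominator is coprime to `p` -/
def PInt (p : ℕ) (x : ℚ) : Prop := Nat.Coprime x.den p

/-- `a ≡ b (mod p^m)` for `p`-integral rationals: `(a-b)/p^m` is `p`-integral -/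
def Cong (p m : ℕ) (a b : ℚ) : Prop := PInt p a ∧ PInt p b ∧ PInt p ((a - b) / (p : ℚ) ^ m)

/-- `H_n = ∑_{i=1}^n 1/i` -/
def Hn (n : ℕ) : ℚ := ∑ i ∈ Icc 1 n, 1 / (i : ℚ)

/-- `c_j = C(2j,j)` -/
def c (j : ℕ) : ℚ := ((2 * j).choose j : ℚ)

theorem pint_of_I {p k : ℕ} [hp : Fact p.Prime] {x : ℚ} (h : I p k x) :
    PInt p (x / (p : ℚ) ^ k) :=
  Nat.Coprime.symm ((Nat.Prime.coprime_iff_not_dvd hp.out).2 (den_of_I h))

theorem pint_of_mem {p : ℕ} [hp : Fact p.Prime] {x : ℚ} (h : x ∈ Zp p) : PInt p x := by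
  have := pint_of_I (I_zero_iff.2 h)
  rwa [pow_zero, div_one] at this

theorem cong_of {p m : ℕ} [hp : Fact p.Prime] {a b : ℚ} (ha : a ∈ Zp p) (h : I p m (a - b)) :
    Cong p m a b := by
  refine ⟨pint_of_mem ha, pint_of_mem ?_, pint_of_I h⟩
  have := sub_mem ha h.mem
  rwa [sub_sub_cancel] at this

theorem Hn_eq (n : ℕ) : Hn n = H n 1 := by
  induction n with
  | zero => simp [Hn, H]
  | succ n ih =>
    rw [H_succ, ← ih, Hn, Hn, sum_Icc_succ_top (by omega)]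
    push_cast
    simp

theorem c_eq (j : ℕ) : c j = (Nat.centralBinom j : ℚ) := by
  rw [Nat.centralBinom_eq_two_mul_choose]; rfl

theorem result (p : ℕ) (hp : p.Prime) (h5 : 5 < p) :
    Cong p 5 (∑ j ∈ range ((p - 3) / 2 + 1), c j / (16 ^ j * (2 * (j : ℚ) + 1)))
      ((-1) ^ ((p - 1) / 2) * (1 / 12 * Hn (p - 1) + 3 / 160 * (p : ℚ) ^ 4 * bernoulli (p - 5))) ∧
    Cong p 3 (∑ j ∈ range ((p - 3) / 2 + 1), c j / (16 ^ j * (2 * (j : ℚ) + 1) ^ 3))
      ((-1) ^ ((p - 1) / 2) * (1 / (4 * (p : ℚ) ^ 2) * Hn (p - 1) +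
        1 / 36 * (p : ℚ) ^ 2 * bernoulli (p - 5))) ∧
    Cong p 3 (∑ j ∈ range ((p - 3) / 2 + 1), c j / ((-16) ^ j * (2 * (j : ℚ) + 1) ^ 2))
      (1 / (5 * (p : ℚ)) * Hn (p - 1)) ∧
    Cong p 2 (∑ j ∈ Icc ((p + 1) / 2) (p - 1), c j / ((-16) ^ j * (2 * (j : ℚ) + 1) ^ 2))
      (-(1 / 4) * (p : ℚ) * bernoulli (p - 3)) := by
  have : Fact p.Prime := ⟨hp⟩
  obtain ⟨y, hy⟩ : ∃ y, p = 2 * y + 1 := ⟨p / 2, by
    have hodd : p % 2 = 1 := hp.eq_two_or_odd.resolve_left (by omega)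
    omega⟩
  have h3 : 3 < p := by omega
  have hu2 := u2 (p := p) (by omega)
  have e1 : (p - 3) / 2 + 1 = y := by omega
  have e2 : (p - 1) / 2 = y := by omega
  have e3 : p - 1 = 2 * y := by omega
  have haa : ∀ j ∈ range y, aa j ∈ Zp p := by
    intro j hj
    unfold aa
    have e : (16 : ℚ) ^ j = 2 ^ (4 * j) := by rw [pow_mul]; norm_num
    rw [e]
    exact dmem (nat_mem _) ((hu2.pow _).mul (uOdd hy (mem_range.1 hj)))
  have s1 : ∑ j ∈ range y, c j / (16 ^ j * (2 * (j : ℚ) + 1)) = ∑ j ∈ range y, aa j :=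
    sum_congr rfl fun j _ => by rw [c_eq]; rfl
  have s2 : ∑ j ∈ range y, c j / (16 ^ j * (2 * (j : ℚ) + 1) ^ 3) =
      ∑ j ∈ range y, aa j / (2 * (j : ℚ) + 1) ^ 2 := by
    refine sum_congr rfl fun j _ => ?_
    rw [c_eq]
    unfold aa
    have := odd_ne j
    field_simp
  have s3 : ∑ j ∈ range y, c j / ((-16) ^ j * (2 * (j : ℚ) + 1) ^ 2) =
      ∑ j ∈ range y, rr j / (2 * (j : ℚ) + 1) := by
    refine sum_congr rfl fun j _ => ?_
    rw [c_eq]
    unfold rr aa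
    have h0 := odd_ne j
    have e : (-16 : ℚ) ^ j = (-1) ^ j * 16 ^ j := by rw [← mul_pow]; norm_num
    rw [e]
    have h := npm j
    have hs : (-1 : ℚ) ^ j ≠ 0 := pow_ne_zero _ (by norm_num)
    obtain ⟨s, hs'⟩ : ∃ s, s = (-1 : ℚ) ^ j := ⟨_, rfl⟩
    rw [← hs'] at h hs ⊢
    field_simp
    linear_combination (-(Nat.centralBinom j : ℚ)) * h
  rw [e1, e2, e3, Hn_eq, s1, s2, s3]
  refine ⟨cong_of (sum_mem haa) (acm1 hy h5), cong_of ?_ (acm2 hy h5), cong_of ?_ (acm3 hy h5), ?_⟩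
  · exact sum_mem fun j hj => dmem (haa j hj) ((uOdd hy (mem_range.1 hj)).pow 2)
  · exact sum_mem fun j hj => dmem (mul_mem (pow_mem (neg_mem (one_mem _)) _) (haa j hj))
      (uOdd hy (mem_range.1 hj))
  · have k := acm4 hy h5
    rw [e3] at k
    have hb : (-(1 / 4) * (p : ℚ) * bernoulli (p - 3)) ∈ Zp p :=
      mul_mem (mul_mem (m23 h3 (-1) 2 0 (by norm_num)) p_mem)
        (T2H53.HB.bern_mem (p := p) (p - 3) (by omega))
    refine cong_of ?_ k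
    have := add_mem k.mem hb
    rwa [sub_add_cancel] at this

end Pool.Agent.Results.MP_ac7af6_nt.QOneFourCongruences
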